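import Mathlib

/-!
# Algebras over `ℚ` with real coefficients
-/

open TensorProduct

universe v

namespace Pool.Agent.R910.Num

variable {A : Type v} [CommRing A] [Algebra ℚ A] {B : Type v} [CommRing B] [Algebra ℚ B]

/-- The extension of a linear form. -/
noncomputable def degT (deg : A →ₗ[ℚ] ℚ) : (ℝ ⊗[ℚ] A) →ₗ[ℝ] ℝ :=
  (TensorProduct.AlgebraTensorModule.rid ℚ ℝ ℝ).toLinearMap ∘ₗ deg.baseChange ℝ

lemma degT_tmul (deg : A →ₗ[ℚ] ℚ) (r : ℝ) (a : A) : degT deg (r ⊗ₜ a) = r * (deg a : ℝ) := by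
  rw [degT, LinearMap.comp_apply, LinearMap.baseChange_tmul]
  show (TensorProduct.AlgebraTensorModule.rid ℚ ℝ ℝ) _ = _
  rw [TensorProduct.AlgebraTensorModule.rid_tmul, Rat.smul_def, mul_comm]

/-- The specialization of the real coefficients. -/
noncomputable def lamT (lam : ℝ →ₗ[ℚ] ℚ) : (ℝ ⊗[ℚ] A) →ₗ[ℚ] A :=
  (TensorProduct.lid ℚ A).toLinearMap ∘ₗ LinearMap.rTensor A lam

lemma lamT_tmul (lam : ℝ →ₗ[ℚ] ℚ) (r : ℝ) (a : A) : lamT lam (r ⊗ₜ a) = lam r • a := by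
  rw [lamT, LinearMap.comp_apply, LinearMap.rTensor_tmul]
  exact TensorProduct.lid_tmul a (lam r)

lemma lamT_smul (lam : ℝ →ₗ[ℚ] ℚ) (r : ℝ) (v : ℝ ⊗[ℚ] A) :
    lamT lam (r • v) = lamT (lam ∘ₗ LinearMap.mulLeft ℚ r) v := by
  induction v using TensorProduct.induction_on with
  | zero => rw [smul_zero, map_zero, map_zero]
  | tmul s a =>
    rw [TensorProduct.smul_tmul', lamT_tmul, lamT_tmul]
    rfl
  | add v w hv hw => rw [smul_add, map_add, map_add, hv, hw]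

lemma lamT_mul (lam : ℝ →ₗ[ℚ] ℚ) (a : A) (v : ℝ ⊗[ℚ] A) :
    lamT lam ((1 ⊗ₜ a) * v) = a * lamT lam v := by
  induction v using TensorProduct.induction_on with
  | zero => rw [mul_zero, map_zero, mul_zero]
  | tmul s b =>
    rw [Algebra.TensorProduct.tmul_mul_tmul, one_mul, lamT_tmul, lamT_tmul, mul_smul_comm]
  | add v w hv hw => rw [mul_add, map_add, map_add, hv, hw, mul_add]

lemma lam_degT (deg : A →ₗ[ℚ] ℚ) (lam : ℝ →ₗ[ℚ] ℚ) (v : ℝ ⊗[ℚ] A) :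
    lam (degT deg v) = deg (lamT lam v) := by
  induction v using TensorProduct.induction_on with
  | zero => rw [map_zero, map_zero, map_zero, map_zero]
  | tmul r a =>
    rw [degT_tmul, lamT_tmul, map_smul, smul_eq_mul]
    have h1 : r * (deg a : ℝ) = (deg a) • r := by rw [Rat.smul_def, mul_comm]
    rw [h1, map_smul, smul_eq_mul, mul_comm]
  | add v w hv hw => rw [map_add, map_add, map_add, map_add, hv, hw]

/-- Separation by the specializations. -/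
lemma sepT {v : ℝ ⊗[ℚ] A} (h : ∀ lam : ℝ →ₗ[ℚ] ℚ, lamT lam v = 0) : v = 0 := by
  classical
  apply (TensorProduct.equivFinsuppOfBasisLeft (Module.Basis.ofVectorSpace ℚ ℝ)
    (N := A)).injective
  rw [map_zero]
  ext i
  rw [TensorProduct.equivFinsuppOfBasisLeft_apply]
  rw [Finsupp.coe_zero, Pi.zero_apply]
  exact h ((Module.Basis.ofVectorSpace ℚ ℝ).coord i)

/-- Expansion. -/
lemma expandT (v : ℝ ⊗[ℚ] A) : ∃ (ι : Type) (s : Finset ι) (e : ι → ℝ)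
    (lam : ι → (ℝ →ₗ[ℚ] ℚ)), v = ∑ i ∈ s, (e i) ⊗ₜ[ℚ] (lamT (lam i) v) := by
  classical
  set ℬ := Module.Basis.ofVectorSpace ℚ ℝ with hℬ
  set E := TensorProduct.equivFinsuppOfBasisLeft ℬ (N := A) with hE
  refine ⟨_, (E v).support, ℬ, fun i => ℬ.coord i, ?_⟩
  conv_lhs => rw [← E.symm_apply_apply v]
  rw [TensorProduct.equivFinsuppOfBasisLeft_symm_apply, Finsupp.sum]
  apply Finset.sum_congr rfl
  intro i _
  congr 1
  rw [TensorProduct.equivFinsuppOfBasisLeft_apply]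
  rfl

/-- The extension of a subspace. -/
noncomputable def grT (N : Submodule ℚ A) : Submodule ℝ (ℝ ⊗[ℚ] A) :=
  Submodule.span ℝ ((fun a : A => (1 : ℝ) ⊗ₜ[ℚ] a) '' N)

lemma mem_grT {N : Submodule ℚ A} {a : A} (ha : a ∈ N) (r : ℝ) : r ⊗ₜ[ℚ] a ∈ grT N := by
  have h1 : r ⊗ₜ[ℚ] a = r • ((1 : ℝ) ⊗ₜ[ℚ] a) := by
    rw [TensorProduct.smul_tmul', smul_eq_mul, mul_one]
  rw [h1]
  exact Submodule.smul_mem _ _ (Submodule.subset_span ⟨a, ha, rfl⟩)

lemma lamT_mem {N : Submodule ℚ A} {v : ℝ ⊗[ℚ] A} (hv : v ∈ grT N) :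
    ∀ lam : ℝ →ₗ[ℚ] ℚ, lamT lam v ∈ N := by
  refine Submodule.span_induction
    (p := fun v _ => ∀ lam : ℝ →ₗ[ℚ] ℚ, lamT lam v ∈ N) ?_ ?_ ?_ ?_ hv
  · rintro _ ⟨a, ha, rfl⟩ lam
    show lamT lam ((1 : ℝ) ⊗ₜ[ℚ] a) ∈ N
    rw [lamT_tmul]
    exact N.smul_mem _ ha
  · intro lam
    rw [map_zero]
    exact N.zero_mem
  · intro v w _ _ hv hw lam
    rw [map_add]
    exact N.add_mem (hv lam) (hw lam)
  · intro r v _ hv lam
    rw [lamT_smul]
    exact hv _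

lemma grT_mul {N N' N'' : Submodule ℚ A} (h : ∀ a ∈ N, ∀ b ∈ N', a * b ∈ N'')
    {v w : ℝ ⊗[ℚ] A} (hv : v ∈ grT N) (hw : w ∈ grT N') : v * w ∈ grT N'' := by
  refine Submodule.span_induction (p := fun v _ => v * w ∈ grT N'') ?_ ?_ ?_ ?_ hv
  · rintro _ ⟨a, ha, rfl⟩
    refine Submodule.span_induction (p := fun w _ => (1 : ℝ) ⊗ₜ[ℚ] a * w ∈ grT N'')
      ?_ ?_ ?_ ?_ hw
    · rintro _ ⟨b, hb, rfl⟩
      show (1 : ℝ) ⊗ₜ[ℚ] a * (1 : ℝ) ⊗ₜ[ℚ] b ∈ _
      rw [Algebra.TensorProduct.tmul_mul_tmul]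
      exact mem_grT (h a ha b hb) _
    · rw [mul_zero]; exact Submodule.zero_mem _
    · intro x y _ _ hx hy
      rw [mul_add]; exact Submodule.add_mem _ hx hy
    · intro c x _ hx
      rw [mul_smul_comm]; exact Submodule.smul_mem _ _ hx
  · rw [zero_mul]; exact Submodule.zero_mem _
  · intro x y _ _ hx hy
    rw [add_mul]; exact Submodule.add_mem _ hx hy
  · intro c x _ hx
    rw [smul_mul_assoc]; exact Submodule.smul_mem _ _ hx

lemma rat_tmulT (q : ℚ) (r : ℝ) (a : A) : r ⊗ₜ[ℚ] (q • a) = (q : ℝ) • (r ⊗ₜ[ℚ] a) := by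
  rw [TensorProduct.tmul_smul, TensorProduct.smul_tmul', TensorProduct.smul_tmul', Rat.smul_def,
    smul_eq_mul]

/-- Nondegeneracy over the reals. -/
lemma nondegT {N N' : Submodule ℚ A} {deg : A →ₗ[ℚ] ℚ}
    (h : ∀ y ∈ N', (∀ x ∈ N, deg (x * y) = 0) → y = 0) {y : ℝ ⊗[ℚ] A} (hy : y ∈ grT N')
    (h0 : ∀ x ∈ grT N, degT deg (x * y) = 0) : y = 0 := by
  apply sepT
  intro lam
  apply h _ (lamT_mem hy lam)
  intro x hx
  rw [← lamT_mul, ← lam_degT, h0 _ (mem_grT hx 1), map_zero]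

/-- Finiteness over the reals. -/
lemma finT {N : Submodule ℚ A} (hfin : Module.Finite ℚ N) : Module.Finite ℝ (grT N) := by
  set b := Module.finBasis ℚ N with hb
  have h1 : grT N ≤ Submodule.span ℝ (Set.range fun i => (1 : ℝ) ⊗ₜ[ℚ] (b i : A)) := by
    rw [grT, Submodule.span_le]
    rintro _ ⟨a, ha, rfl⟩
    show (1 : ℝ) ⊗ₜ[ℚ] a ∈ Submodule.span ℝ _
    have h2 : a = ∑ i, (b.repr ⟨a, ha⟩ i) • (b i : A) := by
      have := congrArg Subtype.val (b.sum_repr ⟨a, ha⟩).symm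
      rw [Submodule.coe_sum] at this
      exact this
    rw [h2, TensorProduct.tmul_sum]
    apply Submodule.sum_mem
    intro i _
    rw [rat_tmulT]
    exact Submodule.smul_mem _ _ (Submodule.subset_span ⟨i, rfl⟩)
  have h2 : Module.Finite ℝ (Submodule.span ℝ (Set.range fun i =>
      (1 : ℝ) ⊗ₜ[ℚ] (b i : A))) := Module.Finite.span_of_finite ℝ (Set.finite_range _)
  exact Module.Finite.of_injective (Submodule.inclusion h1) (Submodule.inclusion_injective h1)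

/-- The scalars. -/
lemma grT_one : grT (Submodule.span ℚ {(1 : A)}) = Submodule.span ℝ {(1 : ℝ ⊗[ℚ] A)} := by
  apply le_antisymm
  · rw [grT, Submodule.span_le]
    rintro _ ⟨a, ha, rfl⟩
    obtain ⟨q, rfl⟩ := Submodule.mem_span_singleton.1 ha
    show (1 : ℝ) ⊗ₜ[ℚ] (q • (1 : A)) ∈ _
    rw [rat_tmulT, ← Algebra.TensorProduct.one_def]
    exact Submodule.smul_mem _ _ (Submodule.mem_span_singleton_self _)
  · rw [Submodule.span_le]
    rintro _ rfl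
    rw [Algebra.TensorProduct.one_def]
    exact mem_grT (Submodule.mem_span_singleton_self _) 1

/-- The extension of a homomorphism. -/
noncomputable def mapT (ρ : A →ₐ[ℚ] B) : (ℝ ⊗[ℚ] A) →ₐ[ℝ] (ℝ ⊗[ℚ] B) :=
  Algebra.TensorProduct.map (AlgHom.id ℝ ℝ) ρ

lemma mapT_tmul (ρ : A →ₐ[ℚ] B) (r : ℝ) (a : A) : mapT ρ (r ⊗ₜ[ℚ] a) = r ⊗ₜ[ℚ] (ρ a) := by
  rw [mapT, Algebra.TensorProduct.map_tmul]
  rfl

lemma mapT_mem {ρ : A →ₐ[ℚ] B} {N : Submodule ℚ A} {N' : Submodule ℚ B}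
    (h : ∀ a ∈ N, ρ a ∈ N') {v : ℝ ⊗[ℚ] A} (hv : v ∈ grT N) : mapT ρ v ∈ grT N' := by
  refine Submodule.span_induction (p := fun v _ => mapT ρ v ∈ grT N') ?_ ?_ ?_ ?_ hv
  · rintro _ ⟨a, ha, rfl⟩
    show mapT ρ ((1 : ℝ) ⊗ₜ[ℚ] a) ∈ _
    rw [mapT_tmul]
    exact mem_grT (h a ha) 1
  · rw [map_zero]; exact Submodule.zero_mem _
  · intro x y _ _ hx hy
    rw [map_add]; exact Submodule.add_mem _ hx hy
  · intro c x _ hx
    rw [map_smul]; exact Submodule.smul_mem _ _ hx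

lemma lamT_map (ρ : A →ₐ[ℚ] B) (lam : ℝ →ₗ[ℚ] ℚ) (v : ℝ ⊗[ℚ] A) :
    lamT lam (mapT ρ v) = ρ (lamT lam v) := by
  induction v using TensorProduct.induction_on with
  | zero => rw [map_zero, map_zero, map_zero, map_zero]
  | tmul r a => rw [mapT_tmul, lamT_tmul, lamT_tmul, map_smul]
  | add v w hv hw => rw [map_add, map_add, map_add, map_add, hv, hw]

lemma degT_map {ρ : A →ₐ[ℚ] B} {deg : A →ₗ[ℚ] ℚ} {deg' : B →ₗ[ℚ] ℚ} {c : ℚ} {a : A}
    (h : ∀ b, deg' (ρ b) = c * deg (a * b)) (v : ℝ ⊗[ℚ] A) :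
    degT deg' (mapT ρ v) = (c : ℝ) * degT deg (((1 : ℝ) ⊗ₜ[ℚ] a) * v) := by
  induction v using TensorProduct.induction_on with
  | zero => rw [map_zero, map_zero, mul_zero, map_zero, mul_zero]
  | tmul r b =>
    rw [mapT_tmul, degT_tmul, Algebra.TensorProduct.tmul_mul_tmul, one_mul, degT_tmul, h]
    push_cast
    ring
  | add v w hv hw => rw [map_add, map_add, mul_add, map_add, mul_add, hv, hw]

/-- Surjectivity over the reals. -/
lemma surjT {ρ : A →ₐ[ℚ] B} {N : Submodule ℚ A} {N' : Submodule ℚ B}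
    (h : ∀ b ∈ N', ∃ a ∈ N, ρ a = b) {w : ℝ ⊗[ℚ] B} (hw : w ∈ grT N') :
    ∃ v ∈ grT N, mapT ρ v = w := by
  refine Submodule.span_induction (p := fun w _ => ∃ v ∈ grT N, mapT ρ v = w) ?_ ?_ ?_ ?_ hw
  · rintro _ ⟨b, hb, rfl⟩
    obtain ⟨a, ha, rfl⟩ := h b hb
    exact ⟨(1 : ℝ) ⊗ₜ[ℚ] a, mem_grT ha 1, mapT_tmul _ _ _⟩
  · exact ⟨0, Submodule.zero_mem _, map_zero _⟩
  · rintro x y _ _ ⟨v, hv, rfl⟩ ⟨v', hv', rfl⟩
    exact ⟨v + v', Submodule.add_mem _ hv hv', map_add _ _ _⟩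
  · rintro c x _ ⟨v, hv, rfl⟩
    exact ⟨c • v, Submodule.smul_mem _ _ hv, map_smul _ _ _⟩

lemma degT_pow (deg : A →ₗ[ℚ] ℚ) (a : A) (n : ℕ) :
    degT deg (((1 : ℝ) ⊗ₜ[ℚ] a) ^ n) = (deg (a ^ n) : ℝ) := by
  rw [Algebra.TensorProduct.tmul_pow, one_pow, degT_tmul, one_mul]

/-- A real quadratic form in diagonal form. -/
lemma sum_sq_pos {n : ℕ} {c : Fin n → ℝ} (hc : ∀ k, 0 < c k) {r : Fin n → ℝ} (hr : r ≠ 0) :
    0 < ∑ k, r k * r k * c k := by
  obtain ⟨k, hk⟩ := Function.ne_iff.1 hr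
  apply Finset.sum_pos'
  · intro i _
    exact mul_nonneg (mul_self_nonneg _) (hc i).le
  · exact ⟨k, Finset.mem_univ _, mul_pos (mul_self_pos.2 hk) (hc k)⟩

/-- Orthogonal bases. -/
lemma exists_ortho {M : Type*} [AddCommGroup M] [Module ℚ M] [Module.Finite ℚ M]
    (B : LinearMap.BilinForm ℚ M) (h : ∀ x y, B x y = B y x) :
    ∃ v : Module.Basis (Fin (Module.finrank ℚ M)) ℚ M, ∀ i j, i ≠ j → B (v i) (v j) = 0 := by
  letI : Invertible (2 : ℚ) := invertibleOfNonzero two_ne_zero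
  obtain ⟨v, hv⟩ := LinearMap.BilinForm.exists_orthogonal_basis (K := ℚ) (V := M) (B := B)
    ⟨fun x y => h x y⟩
  exact ⟨v, fun i j hij => hv hij⟩

/-- **Positivity with real coefficients.** Let `φ` be a linear form and `P` a subspace over `ℚ` with
`φ (b * b) > 0` for `b ∈ P` not zero. Then this holds over the reals. -/
lemma posT {φ : A →ₗ[ℚ] ℚ} {P : Submodule ℚ A} (hpos : ∀ b ∈ P, b ≠ 0 → 0 < φ (b * b))
    {x : ℝ ⊗[ℚ] A} (hx : ∀ lam : ℝ →ₗ[ℚ] ℚ, lamT lam x ∈ P) (hx0 : x ≠ 0) :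
    0 < degT φ (x * x) := by
  classical
  obtain ⟨ι, s, e, lam, hexp⟩ := expandT x
  set p : ι → A := fun i => lamT (lam i) x with hpdef
  have hpP : ∀ i, p i ∈ P := fun i => hx _
  set M : Submodule ℚ A := Submodule.span ℚ (s.image p : Set A) with hM
  have hMP : M ≤ P := by
    rw [hM, Submodule.span_le]
    intro b hb
    obtain ⟨i, _, rfl⟩ := Finset.mem_image.1 hb
    exact hpP i
  have : Module.Finite ℚ M := Module.Finite.span_of_finite ℚ (Finset.finite_toSet _)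
  set B : LinearMap.BilinForm ℚ M :=
    ((LinearMap.mul ℚ A).compr₂ φ).domRestrict₁₂ M M with hB
  have hBapply : ∀ b c : M, B b c = φ ((b : A) * c) := fun b c => rfl
  obtain ⟨v, hv⟩ := exists_ortho B (fun b c => by rw [hBapply, hBapply, mul_comm])
  -- coordinates
  have hpM : ∀ i ∈ s, p i ∈ M := fun i hi =>
    Submodule.subset_span (Finset.mem_coe.2 (Finset.mem_image_of_mem p hi))
  set r : Fin (Module.finrank ℚ M) → ℝ := fun l =>
    ∑ i ∈ s.attach, e i * (v.repr ⟨p i, hpM i i.2⟩ l : ℝ) with hr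
  have hxr : x = ∑ l, (r l) ⊗ₜ[ℚ] (v l : A) := by
    conv_lhs => rw [hexp]
    rw [← Finset.sum_attach]
    have h1 : ∀ i ∈ s.attach, (e i) ⊗ₜ[ℚ] (lamT (lam i) x) =
        ∑ l, (e i * (v.repr ⟨p i, hpM i i.2⟩ l : ℝ)) ⊗ₜ[ℚ] (v l : A) := by
      intro i _
      have h2 : p i = ∑ l, (v.repr ⟨p i, hpM i i.2⟩ l) • (v l : A) := by
        have := congrArg Subtype.val (v.sum_repr ⟨p i, hpM i i.2⟩).symm
        rw [Submodule.coe_sum] at this
        exact this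
      show (e i) ⊗ₜ[ℚ] (p i) = _
      conv_lhs => rw [h2]
      rw [TensorProduct.tmul_sum]
      apply Finset.sum_congr rfl
      intro l _
      rw [rat_tmulT, TensorProduct.smul_tmul', smul_eq_mul, mul_comm]
    rw [Finset.sum_congr rfl h1, Finset.sum_comm]
    apply Finset.sum_congr rfl
    intro l _
    rw [hr, TensorProduct.sum_tmul]
  have hr0 : r ≠ 0 := by
    intro h
    apply hx0
    rw [hxr]
    apply Finset.sum_eq_zero
    intro l _
    rw [h, Pi.zero_apply, TensorProduct.zero_tmul]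
  have hval : degT φ (x * x) = ∑ l, r l * r l * (B (v l) (v l) : ℝ) := by
    have h1 : degT φ (x * x) = ∑ l, ∑ l', r l * r l' * (B (v l) (v l') : ℝ) := by
      conv_lhs => rw [hxr]
      rw [Finset.sum_mul_sum, map_sum]
      apply Finset.sum_congr rfl
      intro l _
      rw [map_sum]
      apply Finset.sum_congr rfl
      intro l' _
      rw [Algebra.TensorProduct.tmul_mul_tmul, degT_tmul, hBapply]
    rw [h1]
    apply Finset.sum_congr rfl
    intro l _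
    rw [Finset.sum_eq_single l]
    · intro l' _ hl'
      have h2 : B (v l) (v l') = 0 := hv _ _ (Ne.symm hl')
      rw [h2, Rat.cast_zero, mul_zero]
    · intro h; exact absurd (Finset.mem_univ _) h
  rw [hval]
  apply sum_sq_pos _ hr0
  intro l
  have h1 := hpos (v l : A) (hMP (v l).2) (fun h => v.ne_zero l (Subtype.ext h))
  rw [hBapply]
  exact_mod_cast h1

end Pool.Agent.R910.Num
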