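import Pool.Agent.R910.Num.Ring
import Pool.Agent.R910.Mix.One

/-!
# Hyperplane sections and the numerical Hodge-Riemann relations
-/

open CategoryTheory AlgebraicGeometry TensorProduct

set_option linter.unusedSectionVars false

universe u v

namespace Pool.Agent.R910.Num

open Pool.Agent.H914 Pool.Agent.H447 Pool.Agent.R910.Dom Pool.Agent.R910.Mix VarClass Obj
  WeilCohomology

variable {k : Type u} [Field k] {𝒱 : VarClass k} {ops : CycleOps 𝒱}
  {W : WeilCohomology.{u, v} ops} {X Z : 𝒱.Obj}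

attribute [local instance] ratAlg

/-- The pull-back of numerically trivial classes. -/
lemma res_mem_numI (f : Z ⟶ X) (hdim : X.dim = Z.dim + 1) {a : AQ W X} (ha : a ∈ numI W X) :
    resA W f a ∈ numI W Z := by
  rw [mem_numI]
  apply AQ_induction
  · intro l w hw
    have hw' : X.IsCyc (l + 1) (ops.push f w) := ops.push_mem f hw (by omega)
    have h1 := ha (mkA (W := W) ⟨ops.push f w, hw', rfl⟩)
    rw [degQ_apply] at h1 ⊢
    have h2 : W.tr Z ((resA W f a * mkA (W := W) ⟨w, hw, rfl⟩ : AQ W Z) : W.H Z) =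
        W.tr X ((a * mkA (W := W) ⟨ops.push f w, hw', rfl⟩ : AQ W X) : W.H X) := by
      show W.tr Z (W.map f (a : W.H X) * W.cl Z w) = W.tr X ((a : W.H X) * W.cl X (ops.push f w))
      rw [← W.even_comm (W.cl_mem hw), ← W.even_comm (W.cl_mem hw'), W.cl_push, W.tr_push]
    rw [h2]
    exact h1
  · intro a b ha hb
    rw [mul_add, map_add, ha, hb, add_zero]
  · intro q a ha
    rw [mul_smul_comm, map_smul, ha, smul_zero]

/-- Pull-back to a section. -/
noncomputable def resN (W : WeilCohomology.{u, v} ops) (f : Z ⟶ X) (hdim : X.dim = Z.dim + 1) :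
    NA W X →ₐ[ℚ] NA W Z :=
  Ideal.Quotient.liftₐ (numI W X) ((mkN W Z).comp (resA W f))
    (fun a ha => mkN_eq_zero.2 (res_mem_numI f hdim ha))

lemma resN_mk (f : Z ⟶ X) (hdim : X.dim = Z.dim + 1) (a : AQ W X) :
    resN W f hdim (mkN W X a) = mkN W Z (resA W f a) := rfl

lemma resA_mk (f : Z ⟶ X) {j : ℕ} {z : X.Cycles} (hz : X.IsCyc j z) :
    resA W f (mkA (W := W) ⟨z, hz, rfl⟩) =
      mkA (W := W) (j := j) ⟨ops.pull f z, ops.pull_mem f hz, rfl⟩ :=
  Subtype.ext (W.cl_pull f z).symm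

/-- The polarizations. -/
def ampN (W : WeilCohomology.{u, v} ops) (Amp : ∀ X : 𝒱.Obj, Set X.Cycles) (X : 𝒱.Obj) :
    Set (NA W X) :=
  {v | ∃ D ∈ Amp X, ∃ a : AQ W X, (a : W.H X) = W.cl X D ∧ v = mkN W X a}

variable {i : ℕ} {𝒮 : Set 𝒱.Obj} {Amp : ∀ X : 𝒱.Obj, Set X.Cycles}

lemma NumZero.deg_eq {q : ℕ} {z z' : X.Cycles} {c : ℚ} (hz : X.IsCyc q z)
    (hz' : X.IsCyc q z') (h : NumZero ops X q (z - c • z')) (b : AQ W X) :
    degQ W X (mkA (W := W) ⟨z, hz, rfl⟩ * b) =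
      c * degQ W X (mkA (W := W) ⟨z', hz', rfl⟩ * b) := by
  have hsub : X.IsCyc q (z - c • z') := by
    have := hz.add (hz'.smul (-c))
    rwa [neg_smul, ← sub_eq_add_neg] at this
  have h1 := (numI_iff (W := W) hsub).2 h b
  have h2 : mkA (W := W) ⟨z - c • z', hsub, rfl⟩ =
      mkA (W := W) ⟨z, hz, rfl⟩ - c • mkA (W := W) (j := q) ⟨z', hz', rfl⟩ := by
    apply Subtype.ext
    show W.cl X (z - c • z') = W.cl X z - (c : W.K) • W.cl X z'
    rw [map_sub, W.cl_smul]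
  rw [h2, sub_mul, map_sub, smul_mul_assoc, map_smul, smul_eq_mul] at h1
  linarith

/-- The sections in the rings. -/
lemma IsNumSection.sec (hcyc : ∀ X ∈ 𝒮, ∀ D ∈ Amp X, X.IsCyc 1 D) {X Z : 𝒮} {f : Z.1 ⟶ X.1}
    {D : X.1.Cycles} (hD : D ∈ Amp X.1) (hf : IsNumSection ops Amp f D) {a : AQ W X.1}
    (ha : (a : W.H X.1) = W.cl X.1 D) :
    ∃ c : ℚ, Sec ℚ (fun X : 𝒮 => X.1.dim) (fun X => NA W X.1) (fun X => grN W X.1)
      (fun X => degN W X.1) (fun X => ampN W Amp X.1) (mkN W X.1 a) (resN W f hf.1) c := by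
  obtain ⟨hdim, ⟨c, hc, hnum⟩, hamp⟩ := id hf
  have hDc := hcyc X.1 X.2 D hD
  refine ⟨c, hdim, hc, ?_, ?_, ?_⟩
  · intro j x hx
    obtain ⟨z, hz, rfl⟩ := mem_grN.1 hx
    rw [resN_mk, resA_mk f hz]
    exact mem_grN.2 ⟨_, ops.pull_mem f hz, rfl⟩
  · intro x
    obtain ⟨b, rfl⟩ := mkN_surj x
    show degN W Z.1 (resN W f hf.1 (mkN W X.1 b)) = c * degN W X.1 (mkN W X.1 a * mkN W X.1 b)
    rw [resN_mk, ← map_mul, degN_mk, degN_mk]
    have hp : X.1.IsCyc 1 (ops.push f Z.1.V.fundCycle) :=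
      ops.push_mem f Z.1.V.fundCycle_mem (by omega)
    have h1 := NumZero.deg_eq (W := W) hp hDc hnum b
    have h2 : degQ W Z.1 (resA W f b) =
        degQ W X.1 (mkA (W := W) ⟨ops.push f Z.1.V.fundCycle, hp, rfl⟩ * b) := by
      rw [degQ_apply, degQ_apply]
      congr 1
      show W.tr Z.1 (W.map f (b : W.H X.1)) = W.tr X.1 (W.cl X.1 _ * (b : W.H X.1))
      have h3 := W.tr_push f 1 (b : W.H X.1)
      rw [one_mul, ← W.cl_fund Z.1, ← W.cl_push] at h3
      exact h3.symm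
    rw [h2, h1]
    congr 3
    exact Subtype.ext ha.symm
  · rintro _ ⟨D', hD', b, hb, rfl⟩
    refine ⟨_, hamp D' hD', resA W f b, ?_, resN_mk f hdim b⟩
    rw [resA_coe, hb, W.cl_pull]

/-- The rings of all varieties in `𝒮`. -/
theorem core (hS : IsNumAmpleSystem ops 𝒮 Amp i)
    (h : ∀ X ∈ 𝒮, ∀ j, 1 ≤ j → j ≤ i → 2 * j ≤ X.dim →
      (∃ D ∈ Amp X, NumHodgeTypeIn ops X D j) ∨
      (2 * j < X.dim ∧ HasLefschetzSection ops 𝒮 Amp X (j - 1))) :
    HRCore ℚ (fun X : 𝒮 => X.1.dim) (fun X => NA W X.1) (fun X => grN W X.1)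
      (fun X => degN W X.1) (fun X => ampN W Amp X.1) i where
  mul_mem X a ha j x hx := by
    rw [add_comm]
    exact grN_mul ha hx
  amp_mem := by
    rintro X _ ⟨D, hDm, a, ha, rfl⟩
    exact mem_grN.2 ⟨D, hS.isCyc _ X.2 D hDm, congrArg (mkN W X.1) (Subtype.ext ha.symm)⟩
  amp_nonempty X := by
    obtain ⟨D, hDm⟩ := hS.nonempty _ X.2
    exact ⟨_, D, hDm, mkA (j := 1) ⟨D, hS.isCyc _ X.2 D hDm, rfl⟩, rfl, rfl⟩
  finite X j hj hj2 := finN j (by omega)
  one X := by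
    obtain ⟨D, hDm⟩ := hS.nonempty _ X.2
    exact grN_zero (hS.isCyc _ X.2 D hDm) (hS.pos _ X.2 D hDm)
  pos := by
    rintro X _ ⟨D, hDm, a, ha, rfl⟩
    show 0 < degN W X.1 (mkN W X.1 a ^ X.1.dim)
    rw [degN_pow (hS.isCyc _ X.2 D hDm) ha]
    exact hS.pos _ X.2 D hDm
  nondeg X j hj hj2 y hy h0 := nondegN (by omega) hy h0
  sec := by
    rintro X hX _ ⟨D, hDm, a, ha, rfl⟩ j hj hj2 x hx hx0
    obtain ⟨z, hz, rfl⟩ := mem_grN.1 hx
    have hz0 : ¬ NumZero ops X.1 j z := by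
      intro h0
      exact hx0 (mkN_eq_zero.2 ((numI_iff hz).2 h0))
    obtain ⟨Z, hZ, f, hf, hfz⟩ := hS.sec X.1 X.2 hX D hDm j hj hj2 z hz hz0
    obtain ⟨c, hc⟩ := IsNumSection.sec (X := X) (Z := ⟨Z, hZ⟩) hS.isCyc hDm hf ha
    refine ⟨⟨Z, hZ⟩, _, c, hc, fun h0 => hfz ?_⟩
    rw [resN_mk, resA_mk f hz, mkN_eq_zero, numI_iff (ops.pull_mem f hz)] at h0
    exact h0
  seed := by
    intro X j hj0 hj hj2
    obtain ⟨j', rfl⟩ : ∃ j', j = j' + 1 := ⟨j - 1, by omega⟩
    rcases h X.1 X.2 (j' + 1) hj0 hj hj2 with ⟨D, hDm, hH⟩ | ⟨hlt, D, hDm, Z, hZ, f, hf, honto⟩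
    · left
      have hDc := hS.isCyc _ X.2 D hDm
      set a : AQ W X.1 := mkA (j := 1) ⟨D, hDc, rfl⟩ with ha
      have ha' : (a : W.H X.1) = W.cl X.1 D := rfl
      refine ⟨_, ⟨D, hDm, a, rfl, rfl⟩, fun x hx hx0 hw => ?_⟩
      obtain ⟨z, hz, rfl⟩ := mem_grN.1 hx
      have hz0 : ¬ NumZero ops X.1 (j' + 1) z := by
        intro h0
        exact hx0 (mkN_eq_zero.2 ((numI_iff hz).2 h0))
      set m : AQ W X.1 := mkA (j := j' + 1) ⟨z, hz, rfl⟩ with hm
      have hm' : (m : W.H X.1) = W.cl X.1 z := rfl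
      have h1 := hH z hz (by
        intro l w hl hw'
        obtain rfl : j' = l := by omega
        have h2 := hw (mkN W X.1 (mkA (W := W) ⟨w, hw', rfl⟩)) (mem_grN.2 ⟨w, hw', rfl⟩)
        have hcyc : X.1.IsCyc (X.1.dim - (j' + 1) + 1)
            (divPow ops D (X.1.dim - 2 * (j' + 1) + 1) z) := by
          have := divPow_mem (ops := ops) hDc (X.1.dim - 2 * (j' + 1) + 1) hz
          rwa [show j' + 1 + (X.1.dim - 2 * (j' + 1) + 1) = X.1.dim - (j' + 1) + 1 by omega]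
            at this
        rw [← degQ_mk_mul (W := W) hcyc hw' (by omega)]
        have e1 : mkA (W := W) ⟨divPow ops D (X.1.dim - 2 * (j' + 1) + 1) z, hcyc, rfl⟩ =
            a ^ (X.1.dim - 2 * (j' + 1) + 1) * m :=
          Subtype.ext (coe_pow_mul ha' _ z m hm').symm
        rw [e1, ← h2, ← map_pow, ← map_mul, ← map_mul, ← map_mul, degN_mk]
        congr 1
        ring) hz0
      have hcyc : X.1.IsCyc (X.1.dim - (j' + 1)) (divPow ops D (X.1.dim - 2 * (j' + 1)) z) := by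
        have := divPow_mem (ops := ops) hDc (X.1.dim - 2 * (j' + 1)) hz
        rwa [show j' + 1 + (X.1.dim - 2 * (j' + 1)) = X.1.dim - (j' + 1) by omega] at this
      rw [← degQ_mk_mul (W := W) hz hcyc (by omega)] at h1
      have e1 : mkA (W := W) ⟨divPow ops D (X.1.dim - 2 * (j' + 1)) z, hcyc, rfl⟩ =
          a ^ (X.1.dim - 2 * (j' + 1)) * m :=
        Subtype.ext (coe_pow_mul ha' _ z m hm').symm
      rw [e1] at h1
      rw [← map_pow, ← map_mul, ← map_mul, degN_mk]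
      have e2 : m * m * a ^ (X.1.dim - 2 * (j' + 1)) =
          m * (a ^ (X.1.dim - 2 * (j' + 1)) * m) := by ring
      rw [e2]
      exact h1
    · right
      have hDc := hS.isCyc _ X.2 D hDm
      set a : AQ W X.1 := mkA (j := 1) ⟨D, hDc, rfl⟩ with ha
      obtain ⟨c, hc⟩ := IsNumSection.sec (X := X) (Z := ⟨Z, hZ⟩) (W := W) hS.isCyc hDm hf
        (a := a) rfl
      refine ⟨hlt, _, ⟨D, hDm, a, rfl, rfl⟩, ⟨Z, hZ⟩, _, c, hc, fun w hw => ?_⟩
      obtain ⟨y, hy, rfl⟩ := mem_grN.1 hw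
      obtain ⟨u, hu, huy⟩ := honto y hy
      have hu' : X.1.IsCyc j' u := hu
      refine ⟨mkN W X.1 (mkA (W := W) ⟨u, hu', rfl⟩), mem_grN.2 ⟨u, hu', rfl⟩, ?_⟩
      have hdim := hf.1
      rw [resN_mk, resA_mk f hu', ← sub_eq_zero, ← map_sub, mkN_eq_zero]
      have hsub : Z.IsCyc j' (ops.pull f u - y) := by
        have := (ops.pull_mem f hu').add (hy.smul (-1))
        rwa [neg_one_smul, ← sub_eq_add_neg] at this
      have h2 := (numI_iff (W := W) hsub).2 huy
      have h3 : mkA (W := W) ⟨ops.pull f u - y, hsub, rfl⟩ =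
          mkA (W := W) (j := j') ⟨ops.pull f u, ops.pull_mem f hu', rfl⟩ -
            mkA (W := W) (j := j') ⟨y, hy, rfl⟩ :=
        Subtype.ext (map_sub (W.cl Z) _ _)
      rw [h3] at h2
      exact h2

/-- The lists of divisors in the ring. -/
lemma exists_listN (X : 𝒱.Obj) {A : Set X.Cycles} (hA : ∀ D ∈ A, X.IsCyc 1 D)
    (L : List X.Cycles) (hL : ∀ D ∈ L, D ∈ A) :
    ∃ l : List (NA W X), (∀ v ∈ l, ∃ D ∈ A, ∃ a : AQ W X, (a : W.H X) = W.cl X D ∧
      v = mkN W X a) ∧ l.length = L.length ∧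
      ∃ p : AQ W X, l.prod = mkN W X p ∧ ∀ (j : ℕ) (z : X.Cycles), X.IsCyc j z →
        X.IsCyc (j + L.length) (mulList ops L z) ∧
        W.cl X (mulList ops L z) = (p : W.H X) * W.cl X z := by
  induction L with
  | nil =>
    refine ⟨[], by simp, rfl, 1, (map_one (mkN W X)).symm, fun j z hz => ⟨hz, ?_⟩⟩
    show W.cl X z = 1 * W.cl X z
    rw [one_mul]
  | cons D L ih =>
    obtain ⟨l, hl, hlen, p, hp, h⟩ := ih (fun D hD => hL D (by simp [hD]))
    have hDm : D ∈ A := hL D (by simp)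
    set a : AQ W X := mkA (j := 1) ⟨D, hA D hDm, rfl⟩ with ha
    refine ⟨(mkN W X a) :: l, ?_, by simp [hlen], a * p, ?_, fun j z hz => ⟨?_, ?_⟩⟩
    · intro v hv
      rcases List.mem_cons.1 hv with rfl | hv
      · exact ⟨D, hDm, a, rfl, rfl⟩
      · exact hl v hv
    · rw [List.prod_cons, hp, map_mul]
    · have h1 := ops.mul_mem (hA D hDm) (h j z hz).1
      rw [List.length_cons, show j + (L.length + 1) = 1 + (j + L.length) by omega]
      exact h1
    · show W.cl X (ops.mul D (mulList ops L z)) = (W.cl X D * p) * W.cl X z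
      rw [W.cl_mul, (h j z hz).2, mul_assoc]

/-- **The numerical conjectures for all polarizations.** -/
theorem numerical (W : WeilCohomology.{u, v} ops) (hS : IsNumAmpleSystem ops 𝒮 Amp i)
    (h : ∀ X ∈ 𝒮, ∀ j, 1 ≤ j → j ≤ i → 2 * j ≤ X.dim →
      (∃ D ∈ Amp X, NumHodgeTypeIn ops X D j) ∨
      (2 * j < X.dim ∧ HasLefschetzSection ops 𝒮 Amp X (j - 1))) :
    ∀ X ∈ 𝒮, ∀ j ≤ i, 2 * j ≤ X.dim →
      MixedNumLefschetz ops X (Amp X) j ∧ MixedNumHodgeRiemann ops X (Amp X) j := by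
  intro X hX j hj hj2
  have S := core (W := W) hS h
  constructor
  · intro L hL hlen
    obtain ⟨l, hl, hllen, p, hp, hmul⟩ := exists_listN (W := W) X (hS.isCyc X hX) L hL
    have hcyc : ∀ z, X.IsCyc j z → X.IsCyc (X.dim - j) (mulList ops L z) := by
      intro z hz
      have := (hmul j z hz).1
      rwa [hlen, show j + (X.dim - 2 * j) = X.dim - j by omega] at this
    have hcl : ∀ z (hz : X.IsCyc j z), mkN W X (mkA (W := W) ⟨mulList ops L z, hcyc z hz, rfl⟩) =
        l.prod * mkN W X (mkA (W := W) ⟨z, hz, rfl⟩) := by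
      intro z hz
      rw [hp, ← map_mul]
      congr 1
      exact Subtype.ext (hmul j z hz).2
    constructor
    · intro z hz h0
      have h1 := S.inj ⟨X, hX⟩ hj hj2 l (fun v hv => hl v hv) (by rw [hllen, hlen])
        (mem_grN.2 ⟨z, hz, rfl⟩) (by
          rw [← hcl z hz, mkN_eq_zero, numI_iff (hcyc z hz)]
          exact h0)
      rw [mkN_eq_zero, numI_iff hz] at h1
      exact h1
    · intro z' hz'
      obtain ⟨x, hx, h1⟩ := S.surj ⟨X, hX⟩ hj hj2 l (fun v hv => hl v hv)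
        (by rw [hllen, hlen]) (mem_grN.2 ⟨z', hz', rfl⟩)
      obtain ⟨z, hz, rfl⟩ := mem_grN.1 hx
      refine ⟨z, hz, ?_⟩
      rw [← hcl z hz, ← sub_eq_zero, ← map_sub, mkN_eq_zero] at h1
      have hsub : X.IsCyc (X.dim - j) (mulList ops L z - z') := by
        have := (hcyc z hz).add (hz'.smul (-1))
        rwa [neg_one_smul, ← sub_eq_add_neg] at this
      have h3 : mkA (W := W) ⟨mulList ops L z - z', hsub, rfl⟩ =
          mkA (W := W) (j := X.dim - j) ⟨mulList ops L z, hcyc z hz, rfl⟩ -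
            mkA (W := W) (j := X.dim - j) ⟨z', hz', rfl⟩ :=
        Subtype.ext (map_sub (W.cl X) _ _)
      rw [← numI_iff (W := W) hsub, h3]
      exact h1
  · intro D₀ hD₀ L hL hlen z hz hz0 hne
    obtain ⟨l, hl, hllen, p, hp, hmul⟩ := exists_listN (W := W) X (hS.isCyc X hX) L hL
    have hDc := hS.isCyc X hX D₀ hD₀
    set a : AQ W X := mkA (j := 1) ⟨D₀, hDc, rfl⟩ with ha
    set m : AQ W X := mkA (j := j) ⟨z, hz, rfl⟩ with hm
    have hm0 : mkN W X m ≠ 0 := by
      intro h0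
      rw [mkN_eq_zero, numI_iff hz] at h0
      exact hne h0
    have hcyc : X.IsCyc (X.dim - j) (mulList ops L z) := by
      have := (hmul j z hz).1
      rwa [hlen, show j + (X.dim - 2 * j) = X.dim - j by omega] at this
    have key := S.rat ⟨X, hX⟩ hj hj2 (D₀ := mkN W X a) ⟨D₀, hD₀, a, rfl, rfl⟩ l
      (fun v hv => hl v hv) (by rw [hllen, hlen]) (x := mkN W X m) (mem_grN.2 ⟨z, hz, rfl⟩) hm0
      (by
        intro w hw
        match j, hw with
        | 0, hw =>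
          have h1 : w = 0 := hw
          rw [h1, mul_zero, zero_mul, map_zero]
        | j' + 1, hw =>
          obtain ⟨y, hy, rfl⟩ := mem_grN.1 hw
          have h1 := hz0 j' y (by omega) hy
          have hc : X.IsCyc (1 + (X.dim - (j' + 1))) (ops.mul D₀ (mulList ops L z)) :=
            ops.mul_mem hDc hcyc
          rw [← degQ_mk_mul (W := W) hc hy (by omega)] at h1
          have e1 : mkA (W := W) ⟨ops.mul D₀ (mulList ops L z), hc, rfl⟩ = a * (p * m) := by
            apply Subtype.ext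
            show W.cl X (ops.mul D₀ (mulList ops L z)) = W.cl X D₀ * (p * W.cl X z)
            rw [W.cl_mul, (hmul _ z hz).2]
          rw [e1] at h1
          rw [hp, ← map_mul, ← map_mul, ← map_mul]
          show degN W X (mkN W X _) = 0
          rw [degN_mk, ← h1]
          congr 1
          ring)
    have h1 : degN W X (mkN W X m * mkN W X m * l.prod) =
        X.V.degCycle (ops.mul z (mulList ops L z)) := by
      rw [hp, ← map_mul, ← map_mul, degN_mk, ← degQ_mk_mul (W := W) hz hcyc (by omega)]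
      have e1 : mkA (W := W) ⟨mulList ops L z, hcyc, rfl⟩ = p * m :=
        Subtype.ext (hmul j z hz).2
      rw [e1]
      congr 1
      ring
    rw [← h1]
    exact key

/-- The mixed Hodge-Riemann relations contain the numerical conjecture of Hodge type. -/
lemma MixedNumHodgeRiemann.hodge {A : Set X.Cycles} {j : ℕ}
    (h : MixedNumHodgeRiemann ops X A j) {D : X.Cycles} (hD : D ∈ A) :
    NumHodgeTypeIn ops X D j := by
  intro z hz h0 hne
  have h1 := h D hD (List.replicate (X.dim - 2 * j) D)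
    (fun D' hD' => by rw [List.eq_of_mem_replicate hD']; exact hD) List.length_replicate z hz
  rw [mulList_replicate] at h1
  apply h1 _ hne
  have h2 : ops.mul D (divPow ops D (X.dim - 2 * j) z) = divPow ops D (X.dim - 2 * j + 1) z := by
    rw [divPow, divPow, Function.iterate_succ_apply']
  rw [h2]
  exact h0

/-- Classes which are primitive for the Weil cohomology. -/
lemma NumHodgeTypeIn.primitive {D : X.Cycles} (hD : X.IsCyc 1 D) {j : ℕ} (hj : 2 * j ≤ X.dim)
    (h : NumHodgeTypeIn ops X D j) {z : X.Cycles} (hz : X.IsCyc j z)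
    (h0 : W.cl X (divPow ops D (X.dim - 2 * j + 1) z) = 0) (hne : ¬ NumZero ops X j z) :
    0 < (-1 : ℚ) ^ j * X.V.degCycle (ops.mul z (divPow ops D (X.dim - 2 * j) z)) := by
  apply h z hz _ hne
  intro l w hl hw
  have hcyc : X.IsCyc (X.dim - j + 1) (divPow ops D (X.dim - 2 * j + 1) z) := by
    have := divPow_mem (ops := ops) hD (X.dim - 2 * j + 1) hz
    rwa [show j + (X.dim - 2 * j + 1) = X.dim - j + 1 by omega] at this
  have h1 := tr_mul_cl (W := W) hcyc hw hl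
  rw [h0, zero_mul, map_zero] at h1
  exact_mod_cast h1.symm

end Pool.Agent.R910.Num
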