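import Pool.Agent.R910.Num.Defs
import Pool.Agent.R910.Num.Rat
import Pool.Agent.R910.Mix.Real2

/-!
# The ring of algebraic classes modulo numerical equivalence
-/

open CategoryTheory AlgebraicGeometry TensorProduct

set_option linter.unusedSectionVars false

universe u v

namespace Pool.Agent.R910.Num

open Pool.Agent.H914 Pool.Agent.H447 Pool.Agent.R910.Dom Pool.Agent.R910.Mix VarClass Obj
  WeilCohomology

variable {k : Type u} [Field k] {𝒱 : VarClass k} {ops : CycleOps 𝒱}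
  (W : WeilCohomology.{u, v} ops) (X : 𝒱.Obj)

attribute [local instance] ratAlg

/-- The numerically trivial classes. -/
noncomputable def numI : Ideal (AQ W X) where
  carrier := {a | ∀ b : AQ W X, degQ W X (a * b) = 0}
  add_mem' {a a'} ha ha' b := by rw [add_mul, map_add, ha, ha', add_zero]
  zero_mem' b := by rw [zero_mul, map_zero]
  smul_mem' c a ha b := by
    rw [smul_eq_mul, mul_comm c a, mul_assoc]
    exact ha _

/-- The ring of algebraic classes modulo numerical equivalence. -/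
abbrev NA : Type v := AQ W X ⧸ numI W X

/-- The projection. -/
noncomputable def mkN : AQ W X →ₐ[ℚ] NA W X := Ideal.Quotient.mkₐ ℚ (numI W X)

/-- The degree. -/
noncomputable def degN : NA W X →ₗ[ℚ] ℚ :=
  (((numI W X).restrictScalars ℚ).liftQ (degQ W X) (by
    intro a ha
    have h1 : degQ W X (a * 1) = 0 := ha 1
    rw [mul_one] at h1
    exact h1)) ∘ₗ (Submodule.Quotient.restrictScalarsEquiv ℚ (numI W X)).symm.toLinearMap

variable {W X}

lemma mem_numI {a : AQ W X} : a ∈ numI W X ↔ ∀ b : AQ W X, degQ W X (a * b) = 0 := Iff.rfl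

lemma mkN_surj (x : NA W X) : ∃ a, mkN W X a = x := Ideal.Quotient.mk_surjective x

lemma mkN_eq_zero {a : AQ W X} : mkN W X a = 0 ↔ a ∈ numI W X := Ideal.Quotient.eq_zero_iff_mem

lemma degN_mk (a : AQ W X) : degN W X (mkN W X a) = degQ W X a := rfl

/-- The classes of codimension `j`. -/
noncomputable def grN (W : WeilCohomology.{u, v} ops) (X : 𝒱.Obj) (j : ℕ) :
    Submodule ℚ (NA W X) := (AQj W X j).map (mkN W X).toLinearMap

lemma mem_grN {j : ℕ} {x : NA W X} : x ∈ grN W X j ↔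
    ∃ z, ∃ hz : X.IsCyc j z, mkN W X (mkA (W := W) ⟨z, hz, rfl⟩) = x := by
  constructor
  · rintro ⟨a, ⟨z, hz, hza⟩, rfl⟩
    refine ⟨z, hz, ?_⟩
    show mkN W X _ = mkN W X a
    congr 1
    exact Subtype.ext hza
  · rintro ⟨z, hz, rfl⟩
    exact ⟨_, ⟨z, hz, rfl⟩, rfl⟩

/-- The ring is spanned by the algebraic classes. -/
lemma AQ_induction {p : AQ W X → Prop} (h1 : ∀ (j : ℕ) (z : X.Cycles) (hz : X.IsCyc j z),
    p (mkA (W := W) ⟨z, hz, rfl⟩)) (h2 : ∀ a b, p a → p b → p (a + b)) (h3 : ∀ (q : ℚ) a, p a →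
    p (q • a)) (a : AQ W X) : p a := by
  have key : ∀ (x : W.H X), x ∈ Submodule.span ℚ (algSet W X) →
      ∃ h : x ∈ Algebra.adjoin ℚ (algSet W X), p ⟨x, h⟩ := by
    intro x hx
    refine Submodule.span_induction (p := fun x _ =>
      ∃ h : x ∈ Algebra.adjoin ℚ (algSet W X), p ⟨x, h⟩) ?_ ?_ ?_ ?_ hx
    · intro x hx
      obtain ⟨j, z, hz, rfl⟩ := Set.mem_iUnion.1 hx
      exact ⟨Algebra.subset_adjoin hx, h1 j z hz⟩
    · refine ⟨Subalgebra.zero_mem _, ?_⟩
      have := h3 0 _ (h1 0 X.V.fundCycle X.V.fundCycle_mem)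
      rw [zero_smul] at this
      exact this
    · rintro x y _ _ ⟨hx, hpx⟩ ⟨hy, hpy⟩
      exact ⟨Subalgebra.add_mem _ hx hy, h2 _ _ hpx hpy⟩
    · rintro q x _ ⟨hx, hpx⟩
      exact ⟨Subalgebra.smul_mem _ hx q, h3 q _ hpx⟩
  have hadj : ∀ x ∈ Algebra.adjoin ℚ (algSet W X), x ∈ Submodule.span ℚ (algSet W X) := by
    intro x hx
    induction hx using Algebra.adjoin_induction with
    | mem x hx => exact Submodule.subset_span hx
    | algebraMap r =>
      rw [Algebra.algebraMap_eq_smul_one]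
      apply Submodule.smul_mem
      apply Submodule.subset_span
      exact Set.mem_iUnion.2 ⟨0, X.V.fundCycle, X.V.fundCycle_mem, W.cl_fund X⟩
    | add x y _ _ hx hy => exact Submodule.add_mem _ hx hy
    | mul x y _ _ hx hy =>
      have h4 := Submodule.mul_mem_mul hx hy
      rw [Submodule.span_mul_span] at h4
      refine Submodule.span_mono ?_ h4
      rintro _ ⟨u, hu, w, hw, rfl⟩
      obtain ⟨j, hj⟩ := Set.mem_iUnion.1 hu
      obtain ⟨l, hl⟩ := Set.mem_iUnion.1 hw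
      exact Set.mem_iUnion.2 ⟨j + l, alg_mul hj hl⟩
  exact (key a (hadj a a.2)).2

/-- Classes in too large codimensions. -/
lemma cl_eq_zero {j : ℕ} (hj : X.dim < j) {z : X.Cycles} (hz : X.IsCyc j z) : W.cl X z = 0 := by
  apply W.nondeg
  intro c
  refine gr_induction (W.isInternal X) (p := fun c => W.tr X (W.cl X z * c) = 0) ?_ ?_ c
  · intro t c hc
    exact W.tr_eq_zero (W.mul_mem (W.cl_mem hz) hc) (by omega)
  · intro c d hc hd
    rw [mul_add, map_add, hc, hd, add_zero]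

lemma degQ_mk_mul {j l : ℕ} {z w : X.Cycles} (hz : X.IsCyc j z) (hw : X.IsCyc l w)
    (h : j + l = X.dim) : degQ W X (mkA (W := W) ⟨z, hz, rfl⟩ * mkA (W := W) ⟨w, hw, rfl⟩) =
      X.V.degCycle (ops.mul z w) := by
  have h1 : W.tr X ((mkA (W := W) ⟨z, hz, rfl⟩ * mkA (W := W) ⟨w, hw, rfl⟩ : AQ W X) : W.H X) =
      (X.V.degCycle (ops.mul z w) : W.K) := tr_mul_cl hz hw h
  rw [degQ_apply, h1, ret_ratCast (retr_one W)]

lemma degQ_mk_mul' {j l : ℕ} {z w : X.Cycles} (hz : X.IsCyc j z) (hw : X.IsCyc l w)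
    (h : j + l ≠ X.dim) : degQ W X (mkA (W := W) ⟨z, hz, rfl⟩ * mkA (W := W) ⟨w, hw, rfl⟩) =
      0 := by
  have h1 : W.tr X ((mkA (W := W) ⟨z, hz, rfl⟩ * mkA (W := W) ⟨w, hw, rfl⟩ : AQ W X) : W.H X) =
      0 := W.tr_eq_zero (W.mul_mem (W.cl_mem hz) (W.cl_mem hw)) (by omega)
  rw [degQ_apply, h1, map_zero]

lemma numI_iff {j : ℕ} {z : X.Cycles} (hz : X.IsCyc j z) :
    mkA (W := W) ⟨z, hz, rfl⟩ ∈ numI W X ↔ NumZero ops X j z := by
  constructor
  · intro h l w hl hw
    rw [← degQ_mk_mul (W := W) hz hw hl]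
    exact h _
  · intro h
    rw [mem_numI]
    apply AQ_induction
    · intro l w hw
      by_cases hl : j + l = X.dim
      · rw [degQ_mk_mul hz hw hl]
        exact h l w hl hw
      · exact degQ_mk_mul' hz hw hl
    · intro a b ha hb
      rw [mul_add, map_add, ha, hb, add_zero]
    · intro q a ha
      rw [mul_smul_comm, map_smul, ha, smul_zero]

/-- Two cycles with the same class. -/
lemma mkA_congr {j l : ℕ} {z w : X.Cycles} (hz : X.IsCyc j z) (hw : X.IsCyc l w)
    (h : W.cl X z = W.cl X w) :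
    mkA (W := W) ⟨z, hz, rfl⟩ = mkA (W := W) (j := l) ⟨w, hw, rfl⟩ := Subtype.ext h

lemma grN_mul {j l : ℕ} {x y : NA W X} (hx : x ∈ grN W X j) (hy : y ∈ grN W X l) :
    x * y ∈ grN W X (j + l) := by
  obtain ⟨z, hz, rfl⟩ := mem_grN.1 hx
  obtain ⟨w, hw, rfl⟩ := mem_grN.1 hy
  refine mem_grN.2 ⟨ops.mul z w, ops.mul_mem hz hw, ?_⟩
  rw [← map_mul]
  congr 1
  exact Subtype.ext (W.cl_mul z w)

/-- Nondegeneracy. -/
lemma nondegN {j : ℕ} (hj : j ≤ X.dim) {y : NA W X} (hy : y ∈ grN W X (X.dim - j))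
    (h : ∀ x ∈ grN W X j, degN W X (x * y) = 0) : y = 0 := by
  obtain ⟨z, hz, rfl⟩ := mem_grN.1 hy
  rw [mkN_eq_zero, numI_iff hz]
  intro l w hl hw
  obtain rfl : l = j := by omega
  have h1 := h _ (mem_grN.2 ⟨w, hw, rfl⟩)
  rw [← map_mul, degN_mk, mul_comm, degQ_mk_mul hz hw (by omega)] at h1
  exact h1

/-- Finiteness. -/
lemma finN (j : ℕ) (hj : j ≤ X.dim) : Module.Finite ℚ (grN W X j) := by
  classical
  obtain ⟨b, hbs, hbspan, hbli⟩ := exists_linearIndependent W.K (algClasses W X (X.dim - j))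
  have hbfin : b.Finite := hbli.setFinite
  have : Finite b := hbfin
  set Φ : grN W X j →ₗ[ℚ] (b → ℚ) := LinearMap.pi fun w =>
    (degN W X) ∘ₗ (LinearMap.mulLeft ℚ (mkN W X (mkA (hbs w.2)))) ∘ₗ
      (grN W X j).subtype with hΦ
  refine Module.Finite.of_injective Φ ?_
  rw [← LinearMap.ker_eq_bot, LinearMap.ker_eq_bot']
  rintro ⟨x, hx⟩ h0
  apply Subtype.ext
  obtain ⟨z, hz, rfl⟩ := mem_grN.1 hx
  show mkN W X _ = 0
  rw [mkN_eq_zero, numI_iff hz]
  have h1 : ∀ w ∈ b, W.tr X (w * W.cl X z) = 0 := by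
    intro w hw
    have h2 : degN W X (mkN W X (mkA (hbs hw)) * mkN W X (mkA (W := W) ⟨z, hz, rfl⟩)) = 0 :=
      congrFun h0 ⟨w, hw⟩
    rw [← map_mul, degN_mk] at h2
    have h5 := tr_eq (W := W) (X := X) (a := mkA (hbs hw) * mkA (W := W) ⟨z, hz, rfl⟩)
      (alg_rat (W := W) (i := X.dim - j) (j := j) (by omega) (hbs hw) ⟨z, hz, rfl⟩)
    rw [h2, Rat.cast_zero] at h5
    exact h5
  intro l w hl hw
  obtain rfl : l = X.dim - j := by omega
  have h2 : W.cl X w ∈ Submodule.span W.K b := by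
    rw [hbspan]; exact Submodule.subset_span ⟨w, hw, rfl⟩
  have h3 : W.tr X (W.cl X w * W.cl X z) = 0 := by
    refine Submodule.span_induction (p := fun w _ => W.tr X (w * W.cl X z) = 0) h1 ?_ ?_ ?_ h2
    · rw [zero_mul, map_zero]
    · intro u v _ _ hu hv
      rw [add_mul, map_add, hu, hv, add_zero]
    · intro c u _ hu
      rw [smul_mul_assoc, map_smul, hu, smul_zero]
  rw [W.even_comm (W.cl_mem hw), tr_mul_cl hz hw (by omega)] at h3
  exact_mod_cast h3

lemma coe_pow_mul {D : X.Cycles} {a : AQ W X} (ha : (a : W.H X) = W.cl X D) (m : ℕ)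
    (z : X.Cycles) (b : AQ W X) (hb : (b : W.H X) = W.cl X z) :
    ((a ^ m * b : AQ W X) : W.H X) = W.cl X (divPow ops D m z) := by
  rw [← lop_pow_coe ha, hb, cl_divPow]

/-- The classes of codimension zero. -/
lemma grN_zero {D : X.Cycles} (hD : X.IsCyc 1 D)
    (hpos : 0 < X.V.degCycle (divPow ops D X.dim X.V.fundCycle)) :
    grN W X 0 = Submodule.span ℚ {1} := by
  have hone : (1 : W.H X) ∈ algClasses W X 0 := ⟨_, X.V.fundCycle_mem, W.cl_fund X⟩
  have htop : W.tr X ((lop W X D ^ X.dim) 1) =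
      (X.V.degCycle (divPow ops D X.dim X.V.fundCycle) : W.K) := by
    rw [← W.tr_cl, cl_divPow, W.cl_fund]
    have := divPow_mem (ops := ops) hD X.dim X.V.fundCycle_mem
    rwa [zero_add] at this
  apply le_antisymm
  · rintro _ ⟨a, ha, rfl⟩
    obtain ⟨z, hz, hza⟩ := id ha
    have h1 : (a : W.H X) ∈ W.gr X 0 := by rw [← hza]; exact W.cl_mem hz
    rw [W.gr_zero] at h1
    obtain ⟨c, hc⟩ := Submodule.mem_span_singleton.1 h1
    obtain ⟨q, hq⟩ := alg_rat (W := W) (i := 0) (j := X.dim) (by omega) ha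
      (alg_pow' hD hone (l := X.dim) (by omega))
    rw [← hc, smul_mul_assoc, one_mul, map_smul, smul_eq_mul, htop] at hq
    have hb : (X.V.degCycle (divPow ops D X.dim X.V.fundCycle) : W.K) ≠ 0 := by
      exact_mod_cast hpos.ne'
    have hc' : c = ((q / X.V.degCycle (divPow ops D X.dim X.V.fundCycle) : ℚ) : W.K) := by
      push_cast
      rw [eq_div_iff hb, hq]
    have h2 : a = (q / X.V.degCycle (divPow ops D X.dim X.V.fundCycle)) • (1 : AQ W X) := by
      apply Subtype.ext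
      rw [coe_smul', ← hc', ← hc]
      rfl
    show mkN W X a ∈ Submodule.span ℚ {(1 : NA W X)}
    rw [h2, map_smul, map_one]
    exact Submodule.smul_mem _ _ (Submodule.mem_span_singleton_self _)
  · rw [Submodule.span_le]
    rintro _ rfl
    exact ⟨1, hone, map_one (mkN W X)⟩

lemma degN_pow {D : X.Cycles} (hD : X.IsCyc 1 D) {a : AQ W X} (ha : (a : W.H X) = W.cl X D) :
    degN W X (mkN W X a ^ X.dim) = X.V.degCycle (divPow ops D X.dim X.V.fundCycle) := by
  have h1 : W.tr X ((a ^ X.dim : AQ W X) : W.H X) =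
      (X.V.degCycle (divPow ops D X.dim X.V.fundCycle) : W.K) := by
    rw [← W.tr_cl, cl_divPow, W.cl_fund]
    · have := lop_pow_coe ha X.dim (1 : AQ W X)
      rw [mul_one] at this
      rw [← this]
      rfl
    · have := divPow_mem (ops := ops) hD X.dim X.V.fundCycle_mem
      rwa [zero_add] at this
  rw [← map_pow, degN_mk, degQ_apply, h1, ret_ratCast (retr_one W)]

end Pool.Agent.R910.Num
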