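import Pool.Agent.R910.Num.Geo

/-!
# The weak Lefschetz theorem for numerical equivalence
-/

open CategoryTheory AlgebraicGeometry TensorProduct

set_option linter.unusedSectionVars false

universe u v

namespace Pool.Agent.R910.Num

open Pool.Agent.H914 Pool.Agent.H447 Pool.Agent.R910.Dom Pool.Agent.R910.Mix VarClass Obj
  WeilCohomology

namespace HRCore

variable {i : ℕ} {Obj : Type u} {dim : Obj → ℕ} {V : Obj → Type v}
    [∀ X, CommRing (V X)] [∀ X, Algebra ℚ (V X)] {gr : ∀ X, ℕ → Submodule ℚ (V X)}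
    {deg : ∀ X, V X →ₗ[ℚ] ℚ} {amp : ∀ X, Set (V X)}

/-- **Weak Lefschetz from the Hodge-Riemann relations**: surjectivity. -/
theorem weak (S : HRCore ℚ dim V gr deg amp i) {X Z : Obj} {a : V X} (ha : a ∈ amp X)
    {ρ : V X →ₐ[ℚ] V Z} {c : ℚ} (h : Sec ℚ dim V gr deg amp a ρ c) (g : V Z →ₗ[ℚ] V X)
    (hg1 : ∀ l, ∀ w ∈ gr Z l, g w ∈ gr X (l + 1)) (hg2 : ∀ x w, g (ρ x * w) = x * g w)
    (hg3 : g 1 = c • a) (hg4 : ∀ w v, deg X (g w * g v) = c * deg Z (ρ a * (w * v)))
    {l : ℕ} (hl : l + 1 ≤ i) (hl2 : 2 * (l + 1) ≤ dim X) :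
    ∀ w ∈ gr Z l, ∃ u ∈ gr X l, ρ u = w := by
  intro w hw
  have hdim := h.dim_eq
  have hc := h.pos
  obtain ⟨m, hm⟩ : ∃ m, dim X = 2 * (l + 1) + m := ⟨dim X - 2 * (l + 1), by omega⟩
  have hrep : ∀ (Y : Obj) (b : V Y), b ∈ amp Y → ∀ k, ∀ D ∈ List.replicate k b, D ∈ amp Y := by
    intro Y b hb k D hD
    rw [List.eq_of_mem_replicate hD]; exact hb
  have hy : a ^ (m + 1) * g w ∈ gr X (dim X - l) := by
    have h1 := S.mem_list (List.replicate (m + 1) a) (hrep X a ha _) (hg1 l w hw)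
    rw [List.prod_replicate, List.length_replicate] at h1
    rwa [show l + 1 + (m + 1) = dim X - l by omega] at h1
  obtain ⟨x, hx, hxy⟩ := S.surj X (j := l) (by omega) (by omega) (List.replicate (m + 2) a)
    (hrep X a ha _) (by rw [List.length_replicate]; omega) hy
  rw [List.prod_replicate] at hxy
  set u : V X := c⁻¹ • x with hu
  have hcu : c • u = x := by rw [hu, smul_smul, mul_inv_cancel₀ hc.ne', one_smul]
  have hu' : u ∈ gr X l := Submodule.smul_mem _ _ hx
  refine ⟨u, hu', ?_⟩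
  by_contra hne
  set w' : V Z := w - ρ u with hw'
  have hw0 : w' ≠ 0 := fun h0 => hne (sub_eq_zero.1 h0).symm
  have hw'm : w' ∈ gr Z l := Submodule.sub_mem _ hw (h.mem l u hu')
  set r : V X := g w' with hr
  have hgu : g (ρ u) = a * x := by
    have := hg2 u 1
    rw [mul_one] at this
    rw [this, hg3, mul_smul_comm, mul_comm, ← mul_smul_comm, hcu]
  have hr1 : a ^ (m + 1) * r = 0 := by
    rw [hr, hw', map_sub, hgu, mul_sub, ← hxy]
    ring
  have hrm : r ∈ gr X (l + 1) := hg1 l w' hw'm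
  have key : ∀ (k : ℕ) (v : V Z), c * deg Z (ρ a * (ρ a ^ k * w' * v)) =
      deg X (a ^ k * r * g v) := by
    intro k v
    rw [← hg4, ← map_pow, hg2]
  have hZ := S.rat Z (j := l) (by omega) (by omega) (D₀ := ρ a) (h.amp_mem a ha)
    (List.replicate (m + 1) (ρ a)) (hrep Z _ (h.amp_mem a ha) _)
    (by rw [List.length_replicate]; omega) hw'm hw0 (by
      intro v _
      rw [List.prod_replicate]
      have h1 := key (m + 1) v
      rw [hr1, zero_mul, map_zero] at h1
      have h2 : w' * v * (ρ a * ρ a ^ (m + 1)) = ρ a * (ρ a ^ (m + 1) * w' * v) := by ring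
      rw [h2]
      exact (mul_eq_zero.1 h1).resolve_left hc.ne')
  rw [List.prod_replicate] at hZ
  have h3 : w' * w' * ρ a ^ (m + 1) = ρ a * (ρ a ^ m * w' * w') := by ring
  have h4 : c * ((-1 : ℚ) ^ l * deg Z (w' * w' * ρ a ^ (m + 1))) =
      (-1) ^ l * deg X (r * r * a ^ m) := by
    rw [h3, mul_left_comm, key m w']
    congr 2
    ring
  have h5 : 0 < (-1 : ℚ) ^ l * deg X (r * r * a ^ m) := by
    rw [← h4]; exact mul_pos hc hZ
  by_cases hr0 : r = 0
  · rw [hr0, mul_zero, zero_mul, map_zero, mul_zero] at h5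
    exact lt_irrefl _ h5
  · have h6 := S.rat X (j := l + 1) hl hl2 ha (List.replicate m a) (hrep X a ha _)
      (by rw [List.length_replicate]; omega) hrm hr0 (by
        intro v _
        rw [List.prod_replicate, show r * v * (a * a ^ m) = v * (a ^ (m + 1) * r) by ring, hr1,
          mul_zero, map_zero])
    rw [List.prod_replicate, pow_succ] at h6
    linarith

/-- Weak Lefschetz: injectivity. -/
theorem weak_inj (S : HRCore ℚ dim V gr deg amp i) {X Z : Obj} {a : V X} (ha : a ∈ amp X)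
    {ρ : V X →ₐ[ℚ] V Z} {c : ℚ} (h : Sec ℚ dim V gr deg amp a ρ c)
    {l : ℕ} (hl : l ≤ i) (hl2 : 2 * l < dim X) {u : V X} (hu : u ∈ gr X l) (h0 : ρ u = 0) :
    u = 0 := by
  obtain ⟨m, hm⟩ : ∃ m, dim X = 2 * l + (m + 1) := ⟨dim X - 2 * l - 1, by omega⟩
  have hrep : ∀ k, ∀ D ∈ List.replicate k a, D ∈ amp X := by
    intro k D hD
    rw [List.eq_of_mem_replicate hD]; exact ha
  apply S.inj X (j := l) hl (by omega) (List.replicate (m + 1) a) (hrep _)
    (by rw [List.length_replicate]; omega) hu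
  rw [List.prod_replicate]
  have h1 := S.mem_list (List.replicate (m + 1) a) (hrep _) hu
  rw [List.prod_replicate, List.length_replicate, show l + (m + 1) = dim X - l by omega] at h1
  apply S.nondeg X l hl (by omega) _ h1
  intro x _
  have h2 := h.deg_eq (x * (a ^ m * u))
  rw [map_mul ρ, map_mul ρ, h0, mul_zero, mul_zero, map_zero] at h2
  have h3 : x * (a ^ (m + 1) * u) = a * (x * (a ^ m * u)) := by ring
  rw [h3]
  exact (mul_eq_zero.1 h2.symm).resolve_left h.pos.ne'

end HRCore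

variable {k : Type u} [Field k] {𝒱 : VarClass k} {ops : CycleOps 𝒱}
  {W : WeilCohomology.{u, v} ops} {X Z : 𝒱.Obj}

attribute [local instance] ratAlg

lemma push_mem_adj (f : Z ⟶ X) (hdim : X.dim = Z.dim + 1) (a : AQ W Z) :
    W.push f (a : W.H Z) ∈ Algebra.adjoin ℚ (algSet W X) := by
  refine AQ_induction (p := fun a => W.push f (a : W.H Z) ∈ Algebra.adjoin ℚ (algSet W X))
    ?_ ?_ ?_ a
  · intro j z hz
    apply Algebra.subset_adjoin
    exact Set.mem_iUnion.2 ⟨j + 1, alg_push f ⟨z, hz, rfl⟩ (by omega)⟩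
  · intro a b ha hb
    rw [Subalgebra.coe_add, map_add]
    exact Subalgebra.add_mem _ ha hb
  · intro q a ha
    rw [coe_smul', map_smul]
    exact Subalgebra.smul_mem _ ha q

/-- The direct image. -/
noncomputable def gA (W : WeilCohomology.{u, v} ops) (f : Z ⟶ X) (hdim : X.dim = Z.dim + 1) :
    AQ W Z →ₗ[ℚ] AQ W X where
  toFun a := ⟨W.push f (a : W.H Z), push_mem_adj f hdim a⟩
  map_add' a b := Subtype.ext (by
    show W.push f ((a + b : AQ W Z) : W.H Z) = W.push f (a : W.H Z) + W.push f (b : W.H Z)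
    rw [Subalgebra.coe_add, map_add])
  map_smul' q a := Subtype.ext (by
    show W.push f ((q • a : AQ W Z) : W.H Z) = (q : W.K) • W.push f (a : W.H Z)
    rw [coe_smul', map_smul])

lemma gA_coe (f : Z ⟶ X) (hdim : X.dim = Z.dim + 1) (a : AQ W Z) :
    (gA W f hdim a : W.H X) = W.push f (a : W.H Z) := rfl

lemma gA_res (f : Z ⟶ X) (hdim : X.dim = Z.dim + 1) (a : AQ W X) (b : AQ W Z) :
    gA W f hdim (resA W f a * b) = a * gA W f hdim b := by
  rw [mul_comm, mul_comm a]
  apply Subtype.ext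
  show W.push f ((b : W.H Z) * W.map f (a : W.H X)) = W.push f (b : W.H Z) * (a : W.H X)
  exact W.push_mul f _ _

lemma degQ_gA (f : Z ⟶ X) (hdim : X.dim = Z.dim + 1) (a : AQ W Z) (b : AQ W X) :
    degQ W X (gA W f hdim a * b) = degQ W Z (a * resA W f b) := by
  rw [degQ_apply, degQ_apply]
  congr 1
  exact W.tr_push f (a : W.H Z) (b : W.H X)

/-- The direct image modulo numerical equivalence. -/
noncomputable def gN (W : WeilCohomology.{u, v} ops) (f : Z ⟶ X) (hdim : X.dim = Z.dim + 1) :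
    NA W Z →ₗ[ℚ] NA W X :=
  (((numI W Z).restrictScalars ℚ).liftQ ((mkN W X).toLinearMap ∘ₗ gA W f hdim) (by
    intro a ha
    rw [LinearMap.mem_ker]
    show mkN W X (gA W f hdim a) = 0
    rw [mkN_eq_zero, mem_numI]
    intro b
    rw [degQ_gA]
    exact ha _)) ∘ₗ (Submodule.Quotient.restrictScalarsEquiv ℚ (numI W Z)).symm.toLinearMap

lemma gN_mk (f : Z ⟶ X) (hdim : X.dim = Z.dim + 1) (a : AQ W Z) :
    gN W f hdim (mkN W Z a) = mkN W X (gA W f hdim a) := rfl

variable {i : ℕ} {𝒮 : Set 𝒱.Obj} {Amp : ∀ X : 𝒱.Obj, Set X.Cycles}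

/-- **The weak Lefschetz theorem for numerical equivalence.** -/
theorem weak_lefschetz (W : WeilCohomology.{u, v} ops) (hS : IsNumAmpleSystem ops 𝒮 Amp i)
    (h : ∀ X ∈ 𝒮, ∀ j, 1 ≤ j → j ≤ i → 2 * j ≤ X.dim →
      (∃ D ∈ Amp X, NumHodgeTypeIn ops X D j) ∨
      (2 * j < X.dim ∧ HasLefschetzSection ops 𝒮 Amp X (j - 1)))
    (X : 𝒱.Obj) (hX : X ∈ 𝒮) (Z : 𝒱.Obj) (hZ : Z ∈ 𝒮) (f : Z ⟶ X) (D : X.Cycles)
    (hD : D ∈ Amp X) (hf : IsNumSection ops Amp f D) (hself : SelfIntersection ops f D)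
    {l : ℕ} (hl : l + 1 ≤ i) (hl2 : 2 * (l + 1) ≤ X.dim) : NumWeakLefschetz ops f l := by
  have S := core (W := W) hS h
  have hdim := hf.1
  have hDc := hS.isCyc X hX D hD
  set a : AQ W X := mkA (j := 1) ⟨D, hDc, rfl⟩ with ha
  obtain ⟨c, hc, hnum⟩ := hf.2.1
  have hsec0 := IsNumSection.sec (X := ⟨X, hX⟩) (Z := ⟨Z, hZ⟩) (W := W) hS.isCyc hD hf
    (a := a) rfl
  obtain ⟨c', hsec'⟩ := hsec0
  have haN : mkN W X a ∈ ampN W Amp X := ⟨D, hD, a, rfl, rfl⟩
  have hp : X.IsCyc 1 (ops.push f Z.V.fundCycle) :=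
    ops.push_mem f Z.V.fundCycle_mem (by omega)
  -- the constants agree
  have hcc : Sec ℚ (fun X : 𝒮 => X.1.dim) (fun X => NA W X.1) (fun X => grN W X.1)
      (fun X => degN W X.1) (fun X => ampN W Amp X.1) (X := ⟨X, hX⟩) (Z := ⟨Z, hZ⟩)
      (mkN W X a) (resN W f hf.1) c := by
    refine ⟨hsec'.dim_eq, hc, hsec'.mem, ?_, hsec'.amp_mem⟩
    intro x
    obtain ⟨b, rfl⟩ := mkN_surj x
    show degN W Z (resN W f hf.1 (mkN W X b)) = c * degN W X (mkN W X a * mkN W X b)
    rw [resN_mk, ← map_mul, degN_mk, degN_mk]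
    have h1 := NumZero.deg_eq (W := W) hp hDc hnum b
    have h2 : degQ W Z (resA W f b) =
        degQ W X (mkA (W := W) ⟨ops.push f Z.V.fundCycle, hp, rfl⟩ * b) := by
      rw [degQ_apply, degQ_apply]
      congr 1
      show W.tr Z (W.map f (b : W.H X)) = W.tr X (W.cl X _ * (b : W.H X))
      have h3 := W.tr_push f 1 (b : W.H X)
      rw [one_mul, ← W.cl_fund Z, ← W.cl_push] at h3
      exact h3.symm
    rw [h2, h1]
  refine ⟨fun u hu h0 => ?_, fun w hw => ?_⟩
  · have h1 := S.weak_inj (X := ⟨X, hX⟩) (Z := ⟨Z, hZ⟩) haN hcc (l := l) (by omega)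
      (by show 2 * l < X.dim; omega) (mem_grN.2 ⟨u, hu, rfl⟩) (by
        rw [resN_mk, resA_mk f hu, mkN_eq_zero, numI_iff (ops.pull_mem f hu)]
        exact h0)
    rw [mkN_eq_zero, numI_iff hu] at h1
    exact h1
  · have h1 := S.weak (X := ⟨X, hX⟩) (Z := ⟨Z, hZ⟩) haN hcc (gN W f hdim) (by
        intro l w hw
        obtain ⟨z, hz, rfl⟩ := mem_grN.1 hw
        refine mem_grN.2 ⟨ops.push f z, ops.push_mem f hz (by show l + X.dim = l + 1 + Z.dim; omega),
          ?_⟩
        rw [gN_mk]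
        congr 1
        exact Subtype.ext (W.cl_push f z)) (by
        intro x w
        obtain ⟨b, rfl⟩ := mkN_surj x
        obtain ⟨b', rfl⟩ := mkN_surj w
        rw [resN_mk, ← map_mul, gN_mk, gN_mk, gA_res, map_mul]) (by
        have e1 : (1 : NA W Z) = mkN W Z 1 := (map_one (mkN W Z)).symm
        show gN W f hdim (1 : NA W Z) = c • mkN W X a
        rw [e1, gN_mk, ← map_smul, ← sub_eq_zero, ← map_sub, mkN_eq_zero]
        have hsub : X.IsCyc 1 (ops.push f Z.V.fundCycle - c • D) := by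
          have := hp.add (hDc.smul (-c))
          rwa [neg_smul, ← sub_eq_add_neg] at this
        have h2 := (numI_iff (W := W) hsub).2 hnum
        have h3 : mkA (W := W) ⟨ops.push f Z.V.fundCycle - c • D, hsub, rfl⟩ =
            gA W f hdim 1 - c • a := by
          apply Subtype.ext
          show W.cl X (ops.push f Z.V.fundCycle - c • D) =
            W.push f (1 : W.H Z) - (c : W.K) • W.cl X D
          rw [map_sub, W.cl_smul, W.cl_push, W.cl_fund]
        rw [h3] at h2
        exact h2) (by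
        intro w v
        obtain ⟨b, rfl⟩ := mkN_surj w
        obtain ⟨b', rfl⟩ := mkN_surj v
        show degN W X (gN W f hdim (mkN W Z b) * gN W f hdim (mkN W Z b')) =
          c * degN W Z (resN W f hf.1 (mkN W X a) * (mkN W Z b * mkN W Z b'))
        rw [gN_mk, gN_mk, resN_mk, ← map_mul (mkN W X), ← map_mul (mkN W Z),
          ← map_mul (mkN W Z), degN_mk, degN_mk]
        refine AQ_induction (p := fun b => degQ W X (gA W f hdim b * gA W f hdim b') =
          c * degQ W Z (resA W f a * (b * b'))) ?_ ?_ ?_ b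
        · intro p z hz
          refine AQ_induction (p := fun b' => degQ W X (gA W f hdim (mkA (W := W) ⟨z, hz, rfl⟩) *
            gA W f hdim b') = c * degQ W Z (resA W f a * (mkA (W := W) ⟨z, hz, rfl⟩ * b')))
            ?_ ?_ ?_ b'
          · intro q y hy
            have hz' : X.IsCyc (p + 1) (ops.push f z) := ops.push_mem f hz (by omega)
            have hy' : X.IsCyc (q + 1) (ops.push f y) := ops.push_mem f hy (by omega)
            have e1 : gA W f hdim (mkA (W := W) ⟨z, hz, rfl⟩) =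
                mkA (W := W) ⟨ops.push f z, hz', rfl⟩ := Subtype.ext (W.cl_push f z).symm
            have e2 : gA W f hdim (mkA (W := W) ⟨y, hy, rfl⟩) =
                mkA (W := W) ⟨ops.push f y, hy', rfl⟩ := Subtype.ext (W.cl_push f y).symm
            have hzy := ops.mul_mem hz hy
            have e3 : mkA (W := W) ⟨z, hz, rfl⟩ * mkA (W := W) (j := q) ⟨y, hy, rfl⟩ =
                mkA (W := W) ⟨ops.mul z y, hzy, rfl⟩ := Subtype.ext (W.cl_mul z y).symm
            rw [e1, e2, e3, resA_mk f hDc]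
            by_cases hpq : p + q + 1 = Z.dim
            · rw [degQ_mk_mul hz' hy' (by omega), degQ_mk_mul (ops.pull_mem f hDc) hzy (by omega)]
              exact hself c hnum p q z y hpq hz hy
            · rw [degQ_mk_mul' hz' hy' (by omega),
                degQ_mk_mul' (ops.pull_mem f hDc) hzy (by omega), mul_zero]
          · intro b b' hb hb'
            rw [map_add, mul_add, map_add, hb, hb', mul_add, mul_add, map_add, mul_add]
          · intro q b hb
            rw [map_smul, mul_smul_comm, map_smul, hb, mul_smul_comm, mul_smul_comm, map_smul,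
              smul_eq_mul, smul_eq_mul]
            ring
        · intro b b'' hb hb'
          rw [map_add, add_mul, map_add, hb, hb', add_mul, mul_add, map_add, mul_add]
        · intro q b hb
          rw [map_smul, smul_mul_assoc, map_smul, hb, smul_mul_assoc, mul_smul_comm, map_smul,
            smul_eq_mul, smul_eq_mul]
          ring)
      (l := l) hl hl2 _ (mem_grN.2 ⟨w, hw, rfl⟩)
    obtain ⟨x, hx, h2⟩ := h1
    obtain ⟨u, hu, rfl⟩ := mem_grN.1 hx
    refine ⟨u, hu, ?_⟩
    rw [resN_mk, resA_mk f hu, ← sub_eq_zero, ← map_sub, mkN_eq_zero] at h2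
    have hsub : Z.IsCyc l (ops.pull f u - w) := by
      have := (ops.pull_mem f hu).add (hw.smul (-1))
      rwa [neg_one_smul, ← sub_eq_add_neg] at this
    have h3 : mkA (W := W) ⟨ops.pull f u - w, hsub, rfl⟩ =
        mkA (W := W) (j := l) ⟨ops.pull f u, ops.pull_mem f hu, rfl⟩ -
          mkA (W := W) (j := l) ⟨w, hw, rfl⟩ :=
      Subtype.ext (map_sub (W.cl Z) _ _)
    rw [← numI_iff (W := W) hsub, h3]
    exact h2

end Pool.Agent.R910.Num
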